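import Pool.Agent.Helper25.GG.Defs2
import Pool.Agent.Helper25.GG.Transfer

/-!
GG-10: swapping two pieces.
-/

namespace Pool.Agent.Helper25.GG

variable {H : Type} [Group H]

theorem exists_swap {M : Matroid ℕ} {A : Set ℕ} {s : ℕ} {I : Set ℕ} {P : ℕ → ℕ → ℕ}
    (hP : Pcs M A s I P) {i i' : ℕ} (hi : i ∈ I) (hi' : i' ∈ I) (hii : i ≠ i') :
    ∃ σ : ℕ → ℕ, IsSwap s P i i' σ := by
  classical
  have h1 : ∀ e, ∃ y, (∀ j < s, P i j = e → y = P i' j) ∧ (∀ j < s, P i' j = e → y = P i j) ∧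
      (e ∉ P i '' Set.Iio s → e ∉ P i' '' Set.Iio s → y = e) := by
    intro e
    by_cases c1 : e ∈ P i '' Set.Iio s
    · obtain ⟨j, hj, rfl⟩ := c1
      refine ⟨P i' j, ?_, ?_, ?_⟩
      · intro j' hj' h
        rw [(hP.inj i hi i hi j' hj' j hj h).2]
      · intro j' hj' h
        exact absurd (hP.inj i' hi' i hi j' hj' j hj h).1 hii.symm
      · intro h _
        exact absurd ⟨j, hj, rfl⟩ h
    · by_cases c2 : e ∈ P i' '' Set.Iio s
      · obtain ⟨j, hj, rfl⟩ := c2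
        refine ⟨P i j, ?_, ?_, ?_⟩
        · intro j' hj' h
          exact absurd (hP.inj i hi i' hi' j' hj' j hj h).1 hii
        · intro j' hj' h
          rw [(hP.inj i' hi' i' hi' j' hj' j hj h).2]
        · intro _ h
          exact absurd ⟨j, hj, rfl⟩ h
      · refine ⟨e, ?_, ?_, fun _ _ => rfl⟩
        · intro j hj h
          exact absurd ⟨j, hj, h⟩ c1
        · intro j hj h
          exact absurd ⟨j, hj, h⟩ c2
  choose σ hσ using h1
  exact ⟨σ, fun j hj => (hσ (P i j)).1 j hj rfl, fun j hj => (hσ (P i' j)).2.1 j hj rfl,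
    fun e h h' => (hσ e).2.2 h h'⟩

theorem IsSwap.invol {M : Matroid ℕ} {A : Set ℕ} {s : ℕ} {I : Set ℕ} {P : ℕ → ℕ → ℕ}
    (hP : Pcs M A s I P) {i i' : ℕ} (hi : i ∈ I) (hi' : i' ∈ I) (hii : i ≠ i') {σ : ℕ → ℕ}
    (hσ : IsSwap s P i i' σ) : (∀ e, σ (σ e) = e) ∧ ∀ X ⊆ M.E, σ '' X ⊆ M.E := by
  constructor
  · intro e
    by_cases c1 : e ∈ P i '' Set.Iio s
    · obtain ⟨j, hj, rfl⟩ := c1
      rw [hσ.1 j hj, hσ.2.1 j hj]
    · by_cases c2 : e ∈ P i' '' Set.Iio s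
      · obtain ⟨j, hj, rfl⟩ := c2
        rw [hσ.2.1 j hj, hσ.1 j hj]
      · rw [hσ.2.2 e c1 c2, hσ.2.2 e c1 c2]
  · rintro X hX _ ⟨e, he, rfl⟩
    by_cases c1 : e ∈ P i '' Set.Iio s
    · obtain ⟨j, hj, rfl⟩ := c1
      rw [hσ.1 j hj]
      exact (hP.mem i' hi' j hj).1
    · by_cases c2 : e ∈ P i' '' Set.Iio s
      · obtain ⟨j, hj, rfl⟩ := c2
        rw [hσ.2.1 j hj]
        exact (hP.mem i hi j hj).1
      · rw [hσ.2.2 e c1 c2]
        exact hX he

theorem swap_aut {M : Matroid ℕ} {G : GGraph ℕ H} (hG : G.Opt M) {A : Set ℕ} {s : ℕ}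
    {I : Set ℕ} {P : ℕ → ℕ → ℕ} (hP : Pcs M A s I P) {i i' : ℕ} (hi : i ∈ I) (hi' : i' ∈ I)
    (hii : i ≠ i') (hsig : SameSig G A s P i i') {σ : ℕ → ℕ} (hσ : IsSwap s P i i' σ) :
    ∀ X ⊆ M.E, (M.Indep X ↔ M.Indep (σ '' X)) := by
  obtain ⟨inv1, inv2⟩ := IsSwap.invol hP hi hi' hii hσ
  have hKE : ∀ k ∈ I, P k '' Set.Iio s ⊆ M.E \ A := by
    rintro k hk _ ⟨j, hj, rfl⟩
    exact hP.mem k hk j hj
  have hdis : ∀ k ∈ I, ∀ k' ∈ I, k ≠ k' → ∀ e ∈ P k '' Set.Iio s, e ∉ P k' '' Set.Iio s := by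
    rintro k hk k' hk' hne _ ⟨j, hj, rfl⟩ ⟨j', hj', h⟩
    exact hne (hP.inj k hk k' hk' j hj j' hj' h.symm).1
  have hopt : ∀ k ∈ I, ∀ e ∈ P k '' Set.Iio s, ∀ e' ∈ M.E, e' ∉ P k '' Set.Iio s → ∀ b b',
      G.en b e = G.en b' e' → G.en b e ∈ G.vs A := by
    intro k hk e he e' he' hek b b' heq
    by_cases heA : e' ∈ A
    · rw [heq]; exact G.en_mem_vs heA b'
    · have h1 := hG.2 A hP.sub (P k '' Set.Iio s) (hKE k hk) (hP.sepr k hk)
      have hm1 : G.en b e ∈ G.vs (P k '' Set.Iio s) := G.en_mem_vs he b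
      have he2 : e' ∈ M.E \ (A ∪ P k '' Set.Iio s) := by
        refine ⟨he', ?_⟩
        rintro (h | h)
        · exact heA h
        · exact hek h
      have hm2 : G.en b e ∈ G.vs (M.E \ (A ∪ P k '' Set.Iio s)) := by
        rw [heq]; exact G.en_mem_vs he2 b'
      exact h1 ⟨hm1, hm2⟩
  have hsig' : SameSig G A s P i' i :=
    ⟨fun j hj => (hsig.1 j hj).symm, fun j hj b h => (hsig.2.1 j hj b h.symm).symm,
      fun j hj j' hj' b b' => (hsig.2.2 j hj j' hj' b b').symm⟩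
  have hσ' : IsSwap s P i' i σ := ⟨hσ.2.1, hσ.1, fun e h h' => hσ.2.2 e h' h⟩
  -- an edge of a piece against an edge outside both pieces
  have outer : ∀ k ∈ I, ∀ k' ∈ I, SameSig G A s P k k' → ∀ j < s, ∀ e' ∈ M.E,
      e' ∉ P k '' Set.Iio s → e' ∉ P k' '' Set.Iio s → ∀ b b',
      (G.en b (P k j) = G.en b' e' ↔ G.en b (P k' j) = G.en b' e') := by
    intro k hk k' hk' hs j hj e' he' h1 h2 b b'
    by_cases hcase : G.en b (P k j) ∈ G.vs A ∨ G.en b (P k' j) ∈ G.vs A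
    · rw [hs.2.1 j hj b hcase]
    · push Not at hcase
      constructor
      · intro h
        exact absurd (hopt k hk _ ⟨j, hj, rfl⟩ e' he' h1 b b' h) hcase.1
      · intro h
        exact absurd (hopt k' hk' _ ⟨j, hj, rfl⟩ e' he' h2 b b' h) hcase.2
  -- an edge of a piece against an edge of the other one
  have cross : ∀ k ∈ I, ∀ k' ∈ I, k ≠ k' → SameSig G A s P k k' → ∀ j < s, ∀ j' < s, ∀ b b',
      (G.en b (P k j) = G.en b' (P k' j') → G.en b (P k' j) = G.en b' (P k j')) := by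
    intro k hk k' hk' hne hs j hj j' hj' b b' h
    have m1 : G.en b (P k j) ∈ G.vs A :=
      hopt k hk _ ⟨j, hj, rfl⟩ (P k' j') (hP.mem k' hk' j' hj').1
        (fun h' => hdis k hk k' hk' hne _ h' ⟨j', hj', rfl⟩) b b' h
    have m2 : G.en b' (P k' j') ∈ G.vs A := h ▸ m1
    rw [← hs.2.1 j hj b (Or.inl m1), hs.2.1 j' hj' b' (Or.inr m2)]
    exact h
  intro X hX
  have key := ind_transfer G G σ (hG.1.1.subset hX)
    (fun x _ y _ h => by rw [← inv1 x, h, inv1 y]) (by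
      intro e he
      by_cases c1 : e ∈ P i '' Set.Iio s
      · obtain ⟨j, hj, rfl⟩ := c1
        rw [hσ.1 j hj]
        exact (hsig.1 j hj).symm
      · by_cases c2 : e ∈ P i' '' Set.Iio s
        · obtain ⟨j, hj, rfl⟩ := c2
          rw [hσ.2.1 j hj]
          exact hsig.1 j hj
        · rw [hσ.2.2 e c1 c2]) (by
      intro e he e' he' b b'
      by_cases c1 : e ∈ P i '' Set.Iio s
      · obtain ⟨j, hj, rfl⟩ := c1
        rw [hσ.1 j hj]
        by_cases d1 : e' ∈ P i '' Set.Iio s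
        · obtain ⟨j', hj', rfl⟩ := d1
          rw [hσ.1 j' hj']
          exact hsig.2.2 j hj j' hj' b b'
        · by_cases d2 : e' ∈ P i' '' Set.Iio s
          · obtain ⟨j', hj', rfl⟩ := d2
            rw [hσ.2.1 j' hj']
            exact ⟨cross i hi i' hi' hii hsig j hj j' hj' b b',
              cross i' hi' i hi hii.symm hsig' j hj j' hj' b b'⟩
          · rw [hσ.2.2 e' d1 d2]
            exact outer i hi i' hi' hsig j hj e' (hX he') d1 d2 b b'
      · by_cases c2 : e ∈ P i' '' Set.Iio s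
        · obtain ⟨j, hj, rfl⟩ := c2
          rw [hσ.2.1 j hj]
          by_cases d1 : e' ∈ P i' '' Set.Iio s
          · obtain ⟨j', hj', rfl⟩ := d1
            rw [hσ.2.1 j' hj']
            exact hsig'.2.2 j hj j' hj' b b'
          · by_cases d2 : e' ∈ P i '' Set.Iio s
            · obtain ⟨j', hj', rfl⟩ := d2
              rw [hσ.1 j' hj']
              exact ⟨cross i' hi' i hi hii.symm hsig' j hj j' hj' b b',
                cross i hi i' hi' hii hsig j hj j' hj' b b'⟩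
            · rw [hσ.2.2 e' d2 d1]
              exact outer i' hi' i hi hsig' j hj e' (hX he') d1 d2 b b'
        · rw [hσ.2.2 e c1 c2]
          by_cases d1 : e' ∈ P i '' Set.Iio s
          · obtain ⟨j', hj', rfl⟩ := d1
            rw [hσ.1 j' hj', eq_comm,
              outer i hi i' hi' hsig j' hj' e (hX he) c1 c2 b' b, eq_comm]
          · by_cases d2 : e' ∈ P i' '' Set.Iio s
            · obtain ⟨j', hj', rfl⟩ := d2
              rw [hσ.2.1 j' hj', eq_comm,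
                outer i' hi' i hi hsig' j' hj' e (hX he) c2 c1 b' b, eq_comm]
            · rw [hσ.2.2 e' d1 d2])
  rw [hG.1.2 X hX, hG.1.2 _ (inv2 X hX)]
  exact key

end Pool.Agent.Helper25.GG
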