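import Pool.Agent.Helper25.GG.Defs2
import Pool.Agent.Helper25.GG.Transfer
import Pool.Agent.Helper4.GG.Sep
import Pool.Agent.Helper21.GG.Swap

/-!
GG-11: cloning a piece.
-/

namespace Pool.Agent.Helper25.GG

variable {H : Type} [Group H]

/-- the counting condition for one set -/
def cloneOk (G : GGraph ℕ H) (Z : Set ℕ) : Prop :=
  Z.ncard ≤ (G.vs Z).ncard ∧ (G.Bal Z → Z.ncard + 1 ≤ (G.vs Z).ncard)

theorem clone_exists_bad {G : GGraph ℕ H} {X : Set ℕ} (hX : X.Finite) (h : ¬ G.Ind X) :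
    ∃ Z ⊆ X, Z.Nonempty ∧ ¬ cloneOk G Z ∧ ∀ Y, Y ⊂ Z → Y.Nonempty → cloneOk G Y := by
  classical
  have h1 : ∃ n, ∃ Z ⊆ X, Z.Nonempty ∧ ¬ cloneOk G Z ∧ Z.ncard = n := by
    unfold GGraph.Ind at h
    push Not at h
    obtain ⟨Z, hZ, hne, hbad⟩ := h
    refine ⟨Z.ncard, Z, hZ, hne, ?_, rfl⟩
    rintro ⟨a1, a2⟩
    obtain ⟨b1, b2⟩ := hbad a1
    exact absurd (a2 b1) (not_le.mpr b2)
  obtain ⟨Z, hZ, hne, hbad, hn⟩ := Nat.find_spec h1
  refine ⟨Z, hZ, hne, hbad, ?_⟩
  intro Y hY hYne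
  by_contra hcon
  have h2 : Y.ncard < Z.ncard := Set.ncard_lt_ncard hY (hX.subset hZ)
  rw [hn] at h2
  exact Nat.find_min h1 h2 ⟨Y, hY.subset.trans hZ, hYne, hcon, rfl⟩

open Classical in
/-- fresh names for the vertices outside `vs A` -/
noncomputable def cloneFr (G : GGraph ℕ H) (A : Set ℕ) (n₁ : ℕ) (v : ℕ) : ℕ :=
  if v ∈ G.vs A then v else v + n₁

open Classical in
/-- the graph with a clone of the piece -/
noncomputable def cloneG (G : GGraph ℕ H) (A Kt : Set ℕ) (n₁ : ℕ) (σ₀ : ℕ → ℕ) :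
    GGraph ℕ H where
  tl e := if e ∈ Kt then cloneFr G A n₁ (G.tl (σ₀ e)) else G.tl e
  hd e := if e ∈ Kt then cloneFr G A n₁ (G.hd (σ₀ e)) else G.hd e
  γ e := if e ∈ Kt then G.γ (σ₀ e) else G.γ e

omit [Group H] in
theorem cloneG_en_in (G : GGraph ℕ H) (A Kt : Set ℕ) (n₁ : ℕ) (σ₀ : ℕ → ℕ) {e : ℕ}
    (he : e ∈ Kt) (b : Bool) :
    (cloneG G A Kt n₁ σ₀).en b e = cloneFr G A n₁ (G.en b (σ₀ e)) := by
  cases b
  · exact if_pos he
  · exact if_pos he

omit [Group H] in
theorem cloneG_en_out (G : GGraph ℕ H) (A Kt : Set ℕ) (n₁ : ℕ) (σ₀ : ℕ → ℕ) {e : ℕ}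
    (he : e ∉ Kt) (b : Bool) :
    (cloneG G A Kt n₁ σ₀).en b e = G.en b e := by
  cases b
  · exact if_neg he
  · exact if_neg he

omit [Group H] in
theorem cloneG_γ_in (G : GGraph ℕ H) (A Kt : Set ℕ) (n₁ : ℕ) (σ₀ : ℕ → ℕ) {e : ℕ}
    (he : e ∈ Kt) : (cloneG G A Kt n₁ σ₀).γ e = G.γ (σ₀ e) :=
  if_pos he

omit [Group H] in
theorem cloneG_γ_out (G : GGraph ℕ H) (A Kt : Set ℕ) (n₁ : ℕ) (σ₀ : ℕ → ℕ) {e : ℕ}
    (he : e ∉ Kt) : (cloneG G A Kt n₁ σ₀).γ e = G.γ e :=
  if_neg he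

omit [Group H] in
theorem cloneFr_in {G : GGraph ℕ H} {A : Set ℕ} {n₁ v : ℕ} (h : v ∈ G.vs A) :
    cloneFr G A n₁ v = v := by
  unfold cloneFr
  rw [if_pos h]

omit [Group H] in
theorem cloneFr_out {G : GGraph ℕ H} {A : Set ℕ} {n₁ v : ℕ} (h : v ∉ G.vs A) :
    cloneFr G A n₁ v = v + n₁ := by
  unfold cloneFr
  rw [if_neg h]

theorem clone {N : Matroid ℕ} (hN : N.E.Finite) {c a : ℕ} (hc : CircLe N c) {A : Set ℕ}
    {s : ℕ} {I : Set ℕ} {P : ℕ → ℕ → ℕ} (hP : Pcs N A s I P) (ha : A.ncard ≤ a) (hs : 0 < s)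
    {t₀ : ℕ} (ht₀ : t₀ ∈ I) {G : GGraph ℕ H} (hG : G.Opt (N.delete {P t₀ 0})) {J : Finset ℕ}
    (hJI : (J : Set ℕ) ⊆ I) (htJ : t₀ ∉ J) (hJ : c + 2 * a + 2 ≤ J.card)
    (hsig : ∀ i ∈ J, ∀ i' ∈ J, SameSig G A s P i i')
    (haut : ∀ i ∈ J, ∀ σ : ℕ → ℕ, IsSwap s P t₀ i σ →
      ∀ X ⊆ N.E, (N.Indep X ↔ N.Indep (σ '' X))) :
    GainGraphic H N := by
  classical
  have hJne : J.Nonempty := by
    rw [← Finset.card_pos]; omega
  obtain ⟨i₀, hi₀⟩ := hJne
  have ne0 : ∀ i ∈ J, t₀ ≠ i := fun i hi h => htJ (h ▸ hi)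
  obtain ⟨σ₀, hσ₀⟩ := exists_swap hP ht₀ (hJI hi₀) (ne0 i₀ hi₀)
  set f := P t₀ 0 with hf
  set Kp : ℕ → Set ℕ := fun i => P i '' Set.Iio s with hKp
  have hKE : ∀ i ∈ I, Kp i ⊆ N.E \ A := by
    rintro i hi _ ⟨j, hj, rfl⟩
    exact hP.mem i hi j hj
  have hdis : ∀ i ∈ I, ∀ i' ∈ I, i ≠ i' → ∀ e ∈ Kp i, e ∉ Kp i' := by
    rintro i hi i' hi' hne _ ⟨j, hj, rfl⟩ ⟨j', hj', h⟩
    exact hne (hP.inj i hi i' hi' j hj j' hj' h.symm).1
  have hfK : f ∈ Kp t₀ := ⟨0, hs, rfl⟩
  have hfA : f ∉ A := (hKE t₀ ht₀ hfK).2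
  have hvfin : (G.vs N.E).Finite := G.vs_finite hN
  obtain ⟨n₁, hn₁⟩ : ∃ n₁ : ℕ, ∀ v ∈ G.vs N.E, v < n₁ := by
    obtain ⟨m, hm⟩ := hvfin.bddAbove
    exact ⟨m + 1, fun v hv => Nat.lt_succ_of_le (hm hv)⟩
  have hvA : G.vs A ⊆ G.vs N.E := G.vs_mono hP.sub
  set G' := cloneG G A (Kp t₀) n₁ σ₀ with hG'
  -- separation of the pieces
  have hopt : ∀ i ∈ J, ∀ e ∈ Kp i, ∀ e' ∈ N.E, e' ∉ Kp t₀ → e' ∉ Kp i → ∀ b b',
      G.en b e = G.en b' e' → G.en b e ∈ G.vs A := by
    intro i hi e he e' he' het hei b b' heq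
    by_cases heA : e' ∈ A
    · rw [heq]; exact G.en_mem_vs heA b'
    · have hsep : Sepr ((N.delete {f}).contract A) (Kp i) :=
        (hP.sepr i (hJI hi)).delete (by
          rw [Set.disjoint_singleton_left]; exact hfA)
      have hfi : f ∉ Kp i := hdis t₀ ht₀ i (hJI hi) (ne0 i hi) f hfK
      have hA' : A ⊆ (N.delete {f}).E := by
        rw [Matroid.delete_ground]
        intro x hx
        exact ⟨hP.sub hx, fun h => hfA ((Set.mem_singleton_iff.mp h) ▸ hx)⟩
      have hK' : Kp i ⊆ (N.delete {f}).E \ A := by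
        rw [Matroid.delete_ground]
        intro x hx
        refine ⟨⟨(hKE i (hJI hi) hx).1, ?_⟩, (hKE i (hJI hi) hx).2⟩
        intro h
        exact hfi ((Set.mem_singleton_iff.mp h) ▸ hx)
      have h1 := hG.2 A hA' (Kp i) hK' hsep
      have hm1 : G.en b e ∈ G.vs (Kp i) := G.en_mem_vs he b
      have he2 : e' ∈ (N.delete {f}).E \ (A ∪ Kp i) := by
        rw [Matroid.delete_ground]
        refine ⟨⟨he', fun h => het ((Set.mem_singleton_iff.mp h) ▸ hfK)⟩, ?_⟩
        rintro (h | h)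
        · exact heA h
        · exact hei h
      have hm2 : G.en b e ∈ G.vs ((N.delete {f}).E \ (A ∪ Kp i)) := by
        rw [heq]; exact G.en_mem_vs he2 b'
      exact h1 ⟨hm1, hm2⟩
  -- the main comparison
  have E1 : ∀ i₁ ∈ J, ∀ X ⊆ N.E, (∀ e ∈ X, e ∉ Kp i₁) → (G'.Ind X ↔ N.Indep X) := by
    intro i₁ hi₁ X hX hXi
    obtain ⟨σ₁, hσ₁⟩ := exists_swap hP ht₀ (hJI hi₁) (ne0 i₁ hi₁)
    obtain ⟨inv1, inv2⟩ := IsSwap.invol hP ht₀ (hJI hi₁) (ne0 i₁ hi₁) hσ₁
    have hid : ∀ e ∈ X, e ∉ Kp t₀ → σ₁ e = e := fun e he h => hσ₁.2.2 e h (hXi e he)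
    have hsame := hsig i₀ hi₀ i₁ hi₁
    have hσ₁X : σ₁ '' X ⊆ N.E \ {f} := by
      intro y hy
      refine ⟨inv2 X hX hy, ?_⟩
      obtain ⟨x, hx, rfl⟩ := hy
      intro h
      rw [Set.mem_singleton_iff] at h
      by_cases hxt : x ∈ Kp t₀
      · obtain ⟨j, hj, rfl⟩ := hxt
        rw [hσ₁.1 j hj] at h
        have : P i₁ j ∈ Kp i₁ := ⟨j, hj, rfl⟩
        rw [h] at this
        exact hdis t₀ ht₀ i₁ (hJI hi₁) (ne0 i₁ hi₁) f hfK this
      · rw [hid x hx hxt] at h
        exact hxt (h ▸ hfK)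
    -- the mixed case of the pattern
    have mixed : ∀ j < s, ∀ e' ∈ X, e' ∉ Kp t₀ → ∀ b b',
        (cloneFr G A n₁ (G.en b (P i₀ j)) = G.en b' e' ↔ G.en b (P i₁ j) = G.en b' e') := by
      intro j hj e' he' het b b'
      by_cases hcase : G.en b (P i₀ j) ∈ G.vs A ∨ G.en b (P i₁ j) ∈ G.vs A
      · have heq := hsame.2.1 j hj b hcase
        have hmem : G.en b (P i₀ j) ∈ G.vs A := by
          rcases hcase with h | h
          · exact h
          · rw [heq]; exact h
        rw [cloneFr_in hmem, heq]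
      · push Not at hcase
        obtain ⟨h1, h2⟩ := hcase
        rw [cloneFr_out h1]
        constructor
        · intro h
          exfalso
          have := hn₁ _ (G.en_mem_vs (hX he') b')
          omega
        · intro h
          exact absurd (hopt i₁ hi₁ (P i₁ j) ⟨j, hj, rfl⟩ e' (hX he') het (hXi e' he') b b' h) h2
    have key := ind_transfer G' G σ₁ (hN.subset hX)
      (fun x _ y _ h => by rw [← inv1 x, h, inv1 y]) (by
        intro e he
        by_cases het : e ∈ Kp t₀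
        · rw [hG', cloneG_γ_in G A _ n₁ σ₀ het]
          obtain ⟨j, hj, rfl⟩ := het
          rw [hσ₁.1 j hj, hσ₀.1 j hj]
          exact (hsame.1 j hj).symm
        · rw [hG', cloneG_γ_out G A _ n₁ σ₀ het, hid e he het]) (by
        intro e he e' he' b b'
        by_cases het : e ∈ Kp t₀
        · by_cases het' : e' ∈ Kp t₀
          · rw [hG', cloneG_en_in G A _ n₁ σ₀ het, cloneG_en_in G A _ n₁ σ₀ het']
            obtain ⟨j, hj, rfl⟩ := het
            obtain ⟨j', hj', rfl⟩ := het'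
            rw [hσ₁.1 j hj, hσ₁.1 j' hj', hσ₀.1 j hj, hσ₀.1 j' hj']
            rw [← hsame.2.2 j hj j' hj' b b']
            have m1 : P i₀ j ∈ N.E := (hKE i₀ (hJI hi₀) ⟨j, hj, rfl⟩).1
            have m2 : P i₀ j' ∈ N.E := (hKE i₀ (hJI hi₀) ⟨j', hj', rfl⟩).1
            have l1 := hn₁ _ (G.en_mem_vs m1 b)
            have l2 := hn₁ _ (G.en_mem_vs m2 b')
            by_cases c1 : G.en b (P i₀ j) ∈ G.vs A
            · by_cases c2 : G.en b' (P i₀ j') ∈ G.vs A
              · rw [cloneFr_in c1, cloneFr_in c2]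
              · rw [cloneFr_in c1, cloneFr_out c2]
                constructor
                · intro h; exfalso; omega
                · intro h; exact absurd (h ▸ c1) c2
            · by_cases c2 : G.en b' (P i₀ j') ∈ G.vs A
              · rw [cloneFr_out c1, cloneFr_in c2]
                constructor
                · intro h; exfalso; omega
                · intro h; exact absurd (h ▸ c2) c1
              · rw [cloneFr_out c1, cloneFr_out c2]
                constructor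
                · intro h; omega
                · intro h; rw [h]
          · rw [hG', cloneG_en_in G A _ n₁ σ₀ het, cloneG_en_out G A _ n₁ σ₀ het',
              hid e' he' het']
            obtain ⟨j, hj, rfl⟩ := het
            rw [hσ₁.1 j hj, hσ₀.1 j hj]
            exact mixed j hj e' he' het' b b'
        · by_cases het' : e' ∈ Kp t₀
          · rw [hG', cloneG_en_out G A _ n₁ σ₀ het, cloneG_en_in G A _ n₁ σ₀ het',
              hid e he het]
            obtain ⟨j, hj, rfl⟩ := het'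
            rw [hσ₁.1 j hj, hσ₀.1 j hj, eq_comm, mixed j hj e he het b' b, eq_comm]
          · rw [hG', cloneG_en_out G A _ n₁ σ₀ het, cloneG_en_out G A _ n₁ σ₀ het',
              hid e he het, hid e' he' het'])
    rw [key, haut i₁ hi₁ σ₁ hσ₁ X hX, ← hG.1.2 (σ₁ '' X) (by
      rw [Matroid.delete_ground]; exact hσ₁X), Matroid.delete_indep_iff]
    constructor
    · exact fun h => h.1
    · intro h
      refine ⟨h, ?_⟩
      rw [Set.disjoint_singleton_right]
      exact fun h' => (hσ₁X h').2 rfl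
  refine ⟨G', hN, ?_⟩
  intro X hX
  constructor
  · -- independent sets of `N`
    intro hI
    by_contra hcon
    obtain ⟨Z, hZX, hZne, hbad, hmin⟩ := clone_exists_bad (hN.subset hX) hcon
    have hZE : Z ⊆ N.E := hZX.trans hX
    have hZfin : Z.Finite := hN.subset hZE
    have hmeet : ∀ i ∈ J, (Z ∩ Kp i).Nonempty := by
      intro i hi
      by_contra h
      rw [Set.not_nonempty_iff_eq_empty] at h
      have h1 := (E1 i hi Z hZE (fun e he he' => by
        have : e ∈ Z ∩ Kp i := ⟨he, he'⟩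
        rw [h] at this
        exact this)).mpr (hI.subset hZX)
      exact hbad (h1 Z subset_rfl hZne)
    have hpriv : ∀ i ∈ J, ∀ v ∈ G'.vs (Z ∩ Kp i), v ∉ G.vs A → v ∉ G'.vs (Z \ Kp i) := by
      intro i hi v hv hvA' hv'
      obtain ⟨e, ⟨heZ, heK⟩, b, rfl⟩ := GGraph.mem_vs.mp hv
      obtain ⟨e', ⟨heZ', heK'⟩, b', heq⟩ := GGraph.mem_vs.mp hv'
      have het : e ∉ Kp t₀ := hdis i (hJI hi) t₀ ht₀ (ne0 i hi).symm e heK
      rw [hG', cloneG_en_out G A _ n₁ σ₀ het] at heq hvA'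
      by_cases het' : e' ∈ Kp t₀
      · rw [cloneG_en_in G A _ n₁ σ₀ het'] at heq
        by_cases c1 : G.en b' (σ₀ e') ∈ G.vs A
        · rw [cloneFr_in c1] at heq
          exact hvA' (heq ▸ c1)
        · rw [cloneFr_out c1] at heq
          have := hn₁ _ (G.en_mem_vs (hZE heZ) b)
          omega
      · rw [cloneG_en_out G A _ n₁ σ₀ het'] at heq
        exact hvA' (hopt i hi e heK e' (hZE heZ') het' heK' b b' heq.symm)
    have hfinv : ∀ Y ⊆ Z, (G'.vs Y).Finite := fun Y hY => G'.vs_finite (hZfin.subset hY)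
    -- the basic inequality
    have hL : ∀ i ∈ J, (G'.vs (Z ∩ Kp i) \ G.vs A).ncard + 1 ≤ (Z ∩ Kp i).ncard := by
      intro i hi
      have hYne : (Z \ Kp i).Nonempty := by
        obtain ⟨i', hi', hne⟩ : ∃ i' ∈ J, i' ≠ i :=
          Finset.exists_mem_ne (by omega) i
        obtain ⟨e, he, heK⟩ := hmeet i' hi'
        exact ⟨e, he, hdis i' (hJI hi') i (hJI hi) hne e heK⟩
      have hYss : Z \ Kp i ⊂ Z := by
        rw [Set.ssubset_iff_of_subset Set.sdiff_subset]
        obtain ⟨e, he, heK⟩ := hmeet i hi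
        exact ⟨e, he, fun h => h.2 heK⟩
      obtain ⟨y1, y2⟩ := hmin _ hYss hYne
      have hcard : Z.ncard = (Z \ Kp i).ncard + (Z ∩ Kp i).ncard := by
        rw [add_comm, Set.ncard_inter_add_ncard_sdiff_eq_ncard Z (Kp i) hZfin]
      have hvs : (G'.vs (Z \ Kp i)).ncard + (G'.vs (Z ∩ Kp i) \ G.vs A).ncard ≤
          (G'.vs Z).ncard := by
        have hdj : Disjoint (G'.vs (Z \ Kp i)) (G'.vs (Z ∩ Kp i) \ G.vs A) := by
          rw [Set.disjoint_left]
          intro v hv hv'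
          exact hpriv i hi v hv'.1 hv'.2 hv
        have hf1 : (G'.vs (Z \ Kp i)).Finite := hfinv _ Set.sdiff_subset
        have hf2 : (G'.vs (Z ∩ Kp i) \ G.vs A).Finite :=
          (hfinv _ Set.inter_subset_left).subset Set.sdiff_subset
        rw [← Set.ncard_union_eq hdj hf1 hf2]
        refine Set.ncard_le_ncard ?_ (hfinv Z subset_rfl)
        rintro v (hv | hv)
        · exact G'.vs_mono Set.sdiff_subset hv
        · exact G'.vs_mono Set.inter_subset_left hv.1
      unfold cloneOk at hbad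
      by_cases hb1 : Z.ncard ≤ (G'.vs Z).ncard
      · have hb2 : ¬ (G'.Bal Z → Z.ncard + 1 ≤ (G'.vs Z).ncard) := fun h => hbad ⟨hb1, h⟩
        push Not at hb2
        obtain ⟨b1, b2⟩ := hb2
        have := y2 (b1.mono Set.sdiff_subset)
        omega
      · omega
    -- summation
    have hsum : ∀ J' : Finset ℕ, J' ⊆ J →
        J'.card + (G'.vs (Z ∩ ⋃ i ∈ J', Kp i) \ G.vs A).ncard ≤ (Z ∩ ⋃ i ∈ J', Kp i).ncard := by
      intro J'
      induction J' using Finset.induction_on with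
      | empty =>
        intro _
        simp [GGraph.vs]
      | insert i J' hi ih =>
        intro hsub
        have hiJ : i ∈ J := hsub (Finset.mem_insert_self _ _)
        have hJ'J : J' ⊆ J := fun x hx => hsub (Finset.mem_insert_of_mem hx)
        have h1 := ih hJ'J
        have h2 := hL i hiJ
        have e1 : Z ∩ ⋃ k ∈ insert i J', Kp k = (Z ∩ Kp i) ∪ (Z ∩ ⋃ k ∈ J', Kp k) := by
          rw [Finset.set_biUnion_insert, Set.inter_union_distrib_left]
        have e2 : (Z ∩ ⋃ k ∈ insert i J', Kp k).ncard =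
            (Z ∩ Kp i).ncard + (Z ∩ ⋃ k ∈ J', Kp k).ncard := by
          rw [e1, Set.ncard_union_eq _ (hZfin.subset Set.inter_subset_left)
            (hZfin.subset Set.inter_subset_left)]
          rw [Set.disjoint_left]
          rintro e ⟨-, he1⟩ ⟨-, he2⟩
          simp only [Set.mem_iUnion] at he2
          obtain ⟨k, hk, hek⟩ := he2
          have hne : i ≠ k := fun h => hi (h ▸ hk)
          exact hdis i (hJI hiJ) k (hJI (hJ'J hk)) hne e he1 hek
        have e3 : (G'.vs (Z ∩ ⋃ k ∈ insert i J', Kp k) \ G.vs A).ncard ≤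
            (G'.vs (Z ∩ Kp i) \ G.vs A).ncard +
              (G'.vs (Z ∩ ⋃ k ∈ J', Kp k) \ G.vs A).ncard := by
          rw [e1, GGraph.vs_union, Set.union_sdiff_distrib]
          exact Set.ncard_union_le _ _
        rw [Finset.card_insert_of_notMem hi, e2]
        omega
    have hJ'card : (J.erase i₀).card = J.card - 1 := Finset.card_erase_of_mem hi₀
    have h3 := hsum (J.erase i₀) (Finset.erase_subset _ _)
    set U := Z ∩ ⋃ i ∈ J.erase i₀, Kp i with hU
    have hUss : U ⊂ Z := by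
      rw [Set.ssubset_iff_of_subset Set.inter_subset_left]
      obtain ⟨e, he, heK⟩ := hmeet i₀ hi₀
      refine ⟨e, he, ?_⟩
      rintro ⟨-, h⟩
      simp only [Set.mem_iUnion] at h
      obtain ⟨k, hk, hek⟩ := h
      rw [Finset.mem_erase] at hk
      exact hdis i₀ (hJI hi₀) k (hJI hk.2) hk.1.symm e heK hek
    have hUne : U.Nonempty := by
      rw [← Set.ncard_pos (hZfin.subset hUss.subset)]
      omega
    obtain ⟨u1, -⟩ := hmin U hUss hUne
    have h4 : (G'.vs U).ncard ≤ (G'.vs U \ G.vs A).ncard + (G.vs A).ncard := by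
      have hAfin : (G.vs A).Finite := hvfin.subset hvA
      have h5 : G'.vs U ⊆ (G'.vs U \ G.vs A) ∪ G.vs A := by
        intro v hv
        by_cases h : v ∈ G.vs A
        · exact Or.inr h
        · exact Or.inl ⟨hv, h⟩
      refine (Set.ncard_le_ncard h5 (((hfinv U hUss.subset).subset Set.sdiff_subset).union
        hAfin)).trans (Set.ncard_union_le _ _)
    have h6 : (G.vs A).ncard ≤ 2 * A.ncard := by
      have hAf : A.Finite := hN.subset hP.sub
      unfold GGraph.vs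
      refine (Set.ncard_union_le _ _).trans ?_
      have a1 := Set.ncard_image_le (f := G.tl) hAf
      have a2 := Set.ncard_image_le (f := G.hd) hAf
      omega
    omega
  · -- dependent sets of `N`
    intro hI
    by_contra hcon
    have hdep : N.Dep X := ⟨hcon, hX⟩
    obtain ⟨C, hCX, hC⟩ := hdep.exists_isCircuit_subset
    have hCc := hc C hC
    have hCfin : C.Finite := hN.subset hC.subset_ground
    obtain ⟨i₁, hi₁, hmiss⟩ : ∃ i₁ ∈ J, ∀ e ∈ C, e ∉ Kp i₁ := by
      by_contra hall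
      push Not at hall
      choose! g hg1 hg2 using hall
      have hinj : Set.InjOn g (J : Set ℕ) := by
        intro i hi i' hi' h
        by_contra hne
        exact hdis i (hJI hi) i' (hJI hi') hne (g i) (hg2 i hi) (h ▸ hg2 i' hi')
      have h1 : J.card ≤ C.ncard := by
        rw [← Set.ncard_coe_finset J, ← hinj.ncard_image]
        refine Set.ncard_le_ncard ?_ hCfin
        rintro _ ⟨i, hi, rfl⟩
        exact hg1 i hi
      omega
    have h1 := (E1 i₁ hi₁ C hC.subset_ground hmiss).mp (hI.mono hCX)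
    exact hC.not_indep h1

end Pool.Agent.Helper25.GG
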