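import Pool.Agent.Helper25.GG.Defs2
import Pool.Agent.Helper25.GG.Transfer
import Pool.Agent.Helper66.GG.Frame

/-!
GG-3: contraction of a link, and vertex-maximal representations.
-/

namespace Pool.Agent.Helper25.GG

variable {H : Type} [Group H]

open Classical in
/-- identify `v'` with `v` -/
noncomputable def optTh (v v' x : ℕ) : ℕ := if x = v' then v else x

/-- the graph with `v'` identified with `v` -/
noncomputable def optCon (G : GGraph ℕ H) (v v' : ℕ) : GGraph ℕ H :=
  ⟨fun e => optTh v v' (G.tl e), fun e => optTh v v' (G.hd e), G.γ⟩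

omit [Group H] in
theorem optCon_en (G : GGraph ℕ H) (v v' : ℕ) (b : Bool) (e : ℕ) :
    (optCon G v v').en b e = optTh v v' (G.en b e) := by
  cases b <;> rfl

omit [Group H] in
theorem optCon_vs (G : GGraph ℕ H) (v v' : ℕ) (X : Set ℕ) :
    (optCon G v v').vs X = optTh v v' '' G.vs X := by
  ext x
  constructor
  · intro h
    obtain ⟨e, he, b, rfl⟩ := GGraph.mem_vs.mp h
    rw [optCon_en]
    exact ⟨_, G.en_mem_vs he b, rfl⟩
  · rintro ⟨y, hy, rfl⟩
    obtain ⟨e, he, b, rfl⟩ := GGraph.mem_vs.mp hy
    rw [← optCon_en]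
    exact GGraph.en_mem_vs _ he b

theorem optTh_self (v v' : ℕ) : optTh v v' v' = v := if_pos rfl

theorem optTh_ne {v v' x : ℕ} (h : x ≠ v') : optTh v v' x = x := if_neg h

theorem optTh_ne_self {v v' : ℕ} (hv : v ≠ v') (x : ℕ) : optTh v v' x ≠ v' := by
  by_cases h : x = v'
  · rw [h, optTh_self]; exact hv
  · rw [optTh_ne h]; exact h

omit [Group H] in
theorem opt_vs_insert (G : GGraph ℕ H) (d : ℕ) (X : Set ℕ) :
    G.vs (insert d X) = {G.tl d, G.hd d} ∪ G.vs X := by
  rw [Set.insert_eq, GGraph.vs_union]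
  congr 1
  unfold GGraph.vs
  rw [Set.image_singleton, Set.image_singleton]
  rfl

theorem opt_bal (G : GGraph ℕ H) {d v v' : ℕ} (htl : G.tl d = v')
    (hhd : G.hd d = v) (hγ : G.γ d = 1) (X : Set ℕ) :
    G.Bal (insert d X) ↔ (optCon G v v').Bal X := by
  constructor
  · rintro ⟨φ, hφ⟩
    have h1 := hφ d (Set.mem_insert _ _)
    rw [hγ, htl, hhd] at h1
    have h2 : φ v = φ v' := by
      have := congrArg (fun t => φ v' * t) h1
      simp only [mul_one, mul_inv_cancel_left] at this
      exact this.symm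
    have h3 : ∀ x, φ (optTh v v' x) = φ x := by
      intro x
      by_cases h : x = v'
      · rw [h, optTh_self, h2]
      · rw [optTh_ne h]
    refine ⟨φ, fun e he => ?_⟩
    change G.γ e = (φ (optTh v v' (G.tl e)))⁻¹ * φ (optTh v v' (G.hd e))
    rw [h3, h3]
    exact hφ e (Set.mem_insert_of_mem _ he)
  · rintro ⟨φ, hφ⟩
    refine ⟨fun x => φ (optTh v v' x), fun e he => ?_⟩
    rcases Set.mem_insert_iff.mp he with rfl | he
    · change G.γ e = (φ (optTh v v' (G.tl e)))⁻¹ * φ (optTh v v' (G.hd e))
      rw [htl, hhd, optTh_self, hγ]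
      by_cases h : v = v'
      · rw [← h, optTh_self, inv_mul_cancel]
      · rw [optTh_ne h, inv_mul_cancel]
    · exact hφ e he

theorem ind_insert_iff' (G : GGraph ℕ H) {d v v' : ℕ} (hv : v ≠ v') (htl : G.tl d = v')
    (hhd : G.hd d = v) (hγ : G.γ d = 1) {I : Set ℕ} (hI : I.Finite) (hd : d ∉ I) :
    G.Ind (insert d I) ↔ (optCon G v v').Ind I := by
  have hF2 : ∀ X : Set ℕ, X.Finite →
      ((optCon G v v').vs X).ncard + 1 ≤ (G.vs (insert d X)).ncard := by
    intro X hX
    have h0 : v' ∉ (optCon G v v').vs X := by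
      rw [optCon_vs]
      rintro ⟨y, -, hy⟩
      exact optTh_ne_self hv y hy
    rw [← Set.ncard_insert_of_notMem h0 (GGraph.vs_finite _ hX)]
    refine Set.ncard_le_ncard ?_ (G.vs_finite (hX.insert d))
    rw [opt_vs_insert, htl, hhd]
    intro x hx
    rcases Set.mem_insert_iff.mp hx with rfl | hx
    · exact Or.inl (Or.inl rfl)
    · rw [optCon_vs] at hx
      obtain ⟨y, hy, rfl⟩ := hx
      by_cases h : y = v'
      · rw [h, optTh_self]; exact Or.inl (Or.inr rfl)
      · rw [optTh_ne h]; exact Or.inr hy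
  constructor
  · intro hInd X hX hne
    have hXf := hI.subset hX
    by_cases hvX : v ∈ (optCon G v v').vs X
    · have h1 : (G.vs (insert d X)).ncard ≤ ((optCon G v v').vs X).ncard + 1 := by
        refine le_trans (Set.ncard_le_ncard ?_ ((GGraph.vs_finite _ hXf).insert v'))
          (Set.ncard_insert_le v' _)
        rw [opt_vs_insert, htl, hhd]
        rintro x ((rfl | rfl) | hx)
        · exact Set.mem_insert _ _
        · exact Set.mem_insert_of_mem _ hvX
        · by_cases h : x = v'
          · rw [h]; exact Set.mem_insert _ _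
          · refine Set.mem_insert_of_mem _ ?_
            rw [optCon_vs]
            exact ⟨x, hx, optTh_ne h⟩
      have h2 := hInd (insert d X) (Set.insert_subset_insert hX) ⟨d, Set.mem_insert _ _⟩
      have h3 : (insert d X).ncard = X.ncard + 1 :=
        Set.ncard_insert_of_notMem (fun h => hd (hX h)) hXf
      rw [h3, opt_bal G htl hhd hγ] at h2
      exact ⟨by omega, fun hb => by have := h2.2 hb; omega⟩
    · have h0 : v' ∉ G.vs X := by
        intro h
        apply hvX
        rw [optCon_vs]
        exact ⟨v', h, optTh_self v v'⟩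
      have h1 : (optCon G v v').vs X = G.vs X := by
        rw [optCon_vs]
        ext x
        constructor
        · rintro ⟨y, hy, rfl⟩
          have h : y ≠ v' := fun h => h0 (h ▸ hy)
          rw [optTh_ne h]
          exact hy
        · intro hx
          exact ⟨x, hx, optTh_ne (fun h : x = v' => h0 (h ▸ hx))⟩
      have h2 := hInd X (hX.trans (Set.subset_insert _ _)) hne
      rw [h1]
      refine ⟨h2.1, fun hb => h2.2 ?_⟩
      exact ((opt_bal G htl hhd hγ X).mpr hb).mono (Set.subset_insert _ _)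
  · intro hInd Z hZ hne
    by_cases hdZ : d ∈ Z
    · set X := Z \ {d} with hX
      have hZX : Z = insert d X := by
        rw [hX, Set.insert_sdiff_singleton, Set.insert_eq_of_mem hdZ]
      have hdX : d ∉ X := fun h => h.2 rfl
      have hXI : X ⊆ I := by
        intro x hx
        rcases Set.mem_insert_iff.mp (hZ hx.1) with h | h
        · exact absurd h hx.2
        · exact h
      have hXf := hI.subset hXI
      have h3 : (insert d X).ncard = X.ncard + 1 := Set.ncard_insert_of_notMem hdX hXf
      have h4 := hF2 X hXf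
      rw [hZX, h3, opt_bal G htl hhd hγ]
      rcases X.eq_empty_or_nonempty with h5 | h5
      · rw [h5] at h4 ⊢
        have h6 : (G.vs (insert d (∅ : Set ℕ))).ncard = 2 := by
          rw [opt_vs_insert, htl, hhd]
          have : G.vs (∅ : Set ℕ) = ∅ := by simp [GGraph.vs]
          rw [this, Set.union_empty]
          exact Set.ncard_pair hv.symm
        rw [h6, Set.ncard_empty]
        exact ⟨by omega, fun _ => by omega⟩
      · have h6 := hInd X hXI h5
        exact ⟨by omega, fun hb => by have := h6.2 hb; omega⟩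
    · have hZI : Z ⊆ I := by
        intro x hx
        rcases Set.mem_insert_iff.mp (hZ hx) with h | h
        · exact absurd (h ▸ hx) hdZ
        · exact h
      have hZf := hI.subset hZI
      have h1 := hInd Z hZI hne
      have h2 : ((optCon G v v').vs Z).ncard ≤ (G.vs Z).ncard := by
        rw [optCon_vs]
        exact Set.ncard_image_le (G.vs_finite hZf)
      refine ⟨h1.1.trans h2, ?_⟩
      rintro ⟨φ, hφ⟩
      by_cases c1 : v' ∈ G.vs Z
      · by_cases c2 : v ∈ G.vs Z
        · have h3 : (optCon G v v').vs Z ⊆ G.vs Z \ {v'} := by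
            rw [optCon_vs]
            rintro _ ⟨x, hx, rfl⟩
            refine ⟨?_, fun h => optTh_ne_self hv x h⟩
            by_cases h : x = v'
            · rw [h, optTh_self]; exact c2
            · rw [optTh_ne h]; exact hx
          have h4 := Set.ncard_le_ncard h3 ((G.vs_finite hZf).subset Set.sdiff_subset)
          have h5 := Set.ncard_sdiff_singleton_add_one c1 (G.vs_finite hZf)
          have := h1.1
          omega
        · refine (h1.2 ?_).trans h2
          classical
          refine ⟨fun x => if x = v then φ v' else φ x, fun e he => ?_⟩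
          have h3 : ∀ x ∈ G.vs Z, (if optTh v v' x = v then φ v' else φ (optTh v v' x)) = φ x := by
            intro x hx
            by_cases h : x = v'
            · rw [h, optTh_self, if_pos rfl]
            · have h' : x ≠ v := fun h' => c2 (h' ▸ hx)
              rw [optTh_ne h, if_neg h']
          change G.γ e = (if optTh v v' (G.tl e) = v then φ v' else φ (optTh v v' (G.tl e)))⁻¹ *
            (if optTh v v' (G.hd e) = v then φ v' else φ (optTh v v' (G.hd e)))
          have e1 := h3 _ (G.en_mem_vs he false)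
          have e2 := h3 _ (G.en_mem_vs he true)
          rw [GGraph.en_false] at e1
          rw [GGraph.en_true] at e2
          rw [e1, e2]
          exact hφ e he
      · refine (h1.2 ?_).trans h2
        refine ⟨φ, fun e he => ?_⟩
        have h3 : ∀ x ∈ G.vs Z, φ (optTh v v' x) = φ x := by
          intro x hx
          have h' : x ≠ v' := fun h' => c1 (h' ▸ hx)
          rw [optTh_ne h']
        change G.γ e = (φ (optTh v v' (G.tl e)))⁻¹ * φ (optTh v v' (G.hd e))
        have e1 := h3 _ (G.en_mem_vs he false)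
        have e2 := h3 _ (G.en_mem_vs he true)
        rw [GGraph.en_false] at e1
        rw [GGraph.en_true] at e2
        rw [e1, e2]
        exact hφ e he

theorem ind_insert_iff (G : GGraph ℕ H) {d v v' : ℕ} (hv : v ≠ v') (htl : G.tl d = v')
    (hhd : G.hd d = v) (hγ : G.γ d = 1) {I : Set ℕ} (hI : I.Finite) (hd : d ∉ I) :
    G.Ind (insert d I) ↔
      (⟨fun e => if G.tl e = v' then v else G.tl e, fun e => if G.hd e = v' then v else G.hd e,
        G.γ⟩ : GGraph ℕ H).Ind I := by
  rw [ind_insert_iff' G hv htl hhd hγ hI hd]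
  have h : ∀ x, optTh v v' x = if x = v' then v else x := by
    intro x
    by_cases h : x = v'
    · rw [h, optTh_self, if_pos rfl]
    · rw [optTh_ne h, if_neg h]
  have e1 : optCon G v v' = (⟨fun e => if G.tl e = v' then v else G.tl e,
      fun e => if G.hd e = v' then v else G.hd e, G.γ⟩ : GGraph ℕ H) := by
    unfold optCon
    simp only [h]
  rw [e1]

/-- independence of sets of edges on which two graphs have the same pattern -/
theorem opt_pattern {G G' : GGraph ℕ H} {X : Set ℕ} (hX : X.Finite)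
    (hγ : ∀ e ∈ X, G'.γ e = G.γ e) (hen : ∀ e ∈ X, ∀ e' ∈ X, ∀ b b',
      G.en b e = G.en b' e' ↔ G'.en b e = G'.en b' e') :
    G.Ind X ↔ G'.Ind X := by
  have h := ind_transfer G G' id hX (Set.injOn_id X) hγ hen
  rwa [Set.image_id] at h

theorem opt_span {M M₁ : Matroid ℕ} (hM : M.E ⊆ M₁.E) {A S B₀ BS : Set ℕ}
    (hSE : S ⊆ M.E \ A) (hB₀ : M.IsBasis B₀ A) (hBS : (M.contract A).IsBasis BS S)
    (hag : ∀ X ⊆ A ∪ S, (M₁.Indep X ↔ M.Indep X)) :
    A ∪ S ⊆ M₁.closure (B₀ ∪ BS) := by
  have hAE : A ⊆ M.E := hB₀.subset_ground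
  have hsub : B₀ ∪ BS ⊆ A ∪ S := Set.union_subset_union hB₀.subset hBS.subset
  have hSA : Disjoint S A := by
    rw [Set.disjoint_left]
    exact fun x hx => (hSE hx).2
  have hind : M.Indep (B₀ ∪ BS) := by
    have h1 := (hB₀.contract_indep_iff.mp hBS.indep).1
    rwa [Set.union_comm] at h1
  have hind1 : M₁.Indep (B₀ ∪ BS) := (hag _ hsub).mpr hind
  intro e he
  by_cases heB : e ∈ B₀ ∪ BS
  · exact M₁.mem_closure_of_mem' heB (hM (by
      rcases he with he | he
      · exact hAE he
      · exact (hSE he).1))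
  · have heE : e ∈ M₁.E := hM (by
      rcases he with he | he
      · exact hAE he
      · exact (hSE he).1)
    by_contra hcon
    rw [hind1.notMem_closure_iff_of_notMem heB heE] at hcon
    have h2 : M.Indep (insert e (B₀ ∪ BS)) :=
      (hag _ (Set.insert_subset he hsub)).mp hcon
    rcases he with he | he
    · have h3 := hB₀.insert_dep ⟨he, fun h => heB (Or.inl h)⟩
      exact h3.not_indep (h2.subset (Set.insert_subset_insert Set.subset_union_left))
    · have h3 := hBS.insert_dep ⟨he, fun h => heB (Or.inr h)⟩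
      apply h3.not_indep
      rw [hB₀.contract_indep_iff]
      refine ⟨?_, ?_⟩
      · refine h2.subset ?_
        rintro x (hx | hx)
        · rcases Set.mem_insert_iff.mp hx with rfl | hx
          · exact Set.mem_insert _ _
          · exact Set.mem_insert_of_mem _ (Or.inr hx)
        · exact Set.mem_insert_of_mem _ (Or.inl hx)
      · have h4 : insert e BS ⊆ S := Set.insert_subset he hBS.subset
        exact (hSA.mono_left h4).symm

/-- the two sets of bases together are independent in the contraction -/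
theorem opt_union_indep {M : Matroid ℕ} {A K BK BR : Set ℕ} (hsep : Sepr (M.contract A) K)
    (hBK : (M.contract A).IsBasis BK K) (hBR : (M.contract A).IsBasis BR (M.E \ (A ∪ K))) :
    (M.contract A).Indep (BK ∪ BR) := by
  by_contra hcon
  have hsub : BK ∪ BR ⊆ (M.contract A).E :=
    Set.union_subset hBK.indep.subset_ground hBR.indep.subset_ground
  rw [Matroid.not_indep_iff hsub] at hcon
  obtain ⟨C, hCs, hC⟩ := hcon.exists_isCircuit_subset
  by_cases h : (C ∩ K).Nonempty
  · have h1 := hsep C hC h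
    have h2 : C ⊆ BK := by
      intro x hx
      rcases hCs hx with h3 | h3
      · exact h3
      · exact absurd (Or.inr (h1 hx)) (hBR.subset h3).2
    exact hC.not_indep (hBK.indep.subset h2)
  · have h2 : C ⊆ BR := by
      intro x hx
      rcases hCs hx with h3 | h3
      · exact absurd ⟨x, hx, hBK.subset h3⟩ h
      · exact h3
    exact hC.not_indep (hBR.indep.subset h2)

open Classical in
/-- the graph with the vertex `v` split along `K` -/
noncomputable def optSplit (G : GGraph ℕ H) (K : Set ℕ) (d v v' : ℕ) : GGraph ℕ H where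
  tl e := if e = d then v' else if e ∈ K ∧ G.tl e = v then v' else G.tl e
  hd e := if e = d then v else if e ∈ K ∧ G.hd e = v then v' else G.hd e
  γ e := if e = d then 1 else G.γ e

theorem optSplit_en_same {G : GGraph ℕ H} {K : Set ℕ} {d v v' e : ℕ} {b : Bool} (hed : e ≠ d)
    (h : ¬ (e ∈ K ∧ G.en b e = v)) : (optSplit G K d v v').en b e = G.en b e := by
  cases b
  · exact (if_neg hed).trans (if_neg h)
  · exact (if_neg hed).trans (if_neg h)

theorem optSplit_en_new {G : GGraph ℕ H} {K : Set ℕ} {d v v' e : ℕ} {b : Bool} (hed : e ≠ d)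
    (h : e ∈ K) (h' : G.en b e = v) : (optSplit G K d v v').en b e = v' := by
  cases b
  · exact (if_neg hed).trans (if_pos ⟨h, h'⟩)
  · exact (if_neg hed).trans (if_pos ⟨h, h'⟩)

theorem optSplit_γ {G : GGraph ℕ H} {K : Set ℕ} {d v v' e : ℕ} (hed : e ≠ d) :
    (optSplit G K d v v').γ e = G.γ e := if_neg hed

theorem exists_opt {M : Matroid ℕ} (h : GainGraphic H M) : ∃ G : GGraph ℕ H, G.Opt M := by
  classical
  obtain ⟨G₀, hG₀⟩ := h
  have hfin : M.E.Finite := hG₀.1
  -- a representation with the largest number of vertices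
  obtain ⟨G, hG, hmax⟩ : ∃ G : GGraph ℕ H, G.Rep M ∧
      ∀ G' : GGraph ℕ H, G'.Rep M → (G'.vs M.E).ncard ≤ (G.vs M.E).ncard := by
    let S : Set ℕ := {n | ∃ G : GGraph ℕ H, G.Rep M ∧ (G.vs M.E).ncard = n}
    have hS : S.Nonempty := ⟨_, G₀, hG₀, rfl⟩
    have hb : BddAbove S := by
      refine ⟨2 * M.E.ncard, ?_⟩
      rintro _ ⟨G, -, rfl⟩
      unfold GGraph.vs
      refine (Set.ncard_union_le _ _).trans ?_
      have a1 := Set.ncard_image_le (f := G.tl) hfin
      have a2 := Set.ncard_image_le (f := G.hd) hfin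
      omega
    obtain ⟨G, hG, hn⟩ := Nat.sSup_mem hS hb
    refine ⟨G, hG, fun G' hG' => ?_⟩
    rw [hn]
    exact le_csSup hb ⟨G', hG', rfl⟩
  refine ⟨G, hG, ?_⟩
  intro A hA K hK hsep v hv
  obtain ⟨hvK, hvR⟩ := hv
  by_contra hvA
  -- fresh names
  obtain ⟨v', hv'⟩ : ∃ v', v' ∉ G.vs M.E := (G.vs_finite hfin).exists_notMem
  obtain ⟨d, hd⟩ : ∃ d, d ∉ M.E := hfin.exists_notMem
  have hKE : K ⊆ M.E := fun x hx => (hK hx).1
  have hvE : v ∈ G.vs M.E := G.vs_mono hKE hvK
  have hvv : v ≠ v' := fun h => hv' (h ▸ hvE)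
  have hne : ∀ e ∈ M.E, e ≠ d := fun e he h => hd (h ▸ he)
  have hnv : ∀ e ∈ M.E, ∀ b, G.en b e ≠ v' := fun e he b h => hv' (h ▸ G.en_mem_vs he b)
  set G₂ := optSplit G K d v v' with hG₂
  have htl : G₂.tl d = v' := if_pos rfl
  have hhd : G₂.hd d = v := if_pos rfl
  have hγd : G₂.γ d = 1 := if_pos rfl
  -- contracting the new edge gives back the old graph
  have hcon : ∀ e ∈ M.E, ∀ b, (optCon G₂ v v').en b e = G.en b e := by
    intro e he b
    rw [optCon_en]
    by_cases h : e ∈ K ∧ G.en b e = v
    · rw [hG₂, optSplit_en_new (hne e he) h.1 h.2, optTh_self, h.2]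
    · rw [hG₂, optSplit_en_same (hne e he) h, optTh_ne (hnv e he b)]
  have hstar : ∀ I ⊆ M.E, (M.Indep I ↔ G₂.Ind (insert d I)) := by
    intro I hI
    rw [ind_insert_iff' G₂ hvv htl hhd hγd (hfin.subset hI) (fun h => hd (hI h)), hG.2 I hI]
    refine opt_pattern (hfin.subset hI) ?_ ?_
    · intro e he
      exact optSplit_γ (K := K) (v := v) (v' := v') (hne e (hI he))
    · intro e he e' he' b b'
      rw [hcon e (hI he), hcon e' (hI he')]
  -- the pattern on `A ∪ K` and on `A ∪ R`
  have hpK : ∀ X ⊆ A ∪ K, (G.Ind X ↔ G₂.Ind X) := by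
    intro X hX
    have hXE : X ⊆ M.E := hX.trans (Set.union_subset hA hKE)
    have hval : ∀ e ∈ X, ∀ b, G₂.en b e = if G.en b e = v then v' else G.en b e := by
      intro e he b
      by_cases h : G.en b e = v
      · rw [if_pos h]
        rcases hX he with h1 | h1
        · exact absurd (h ▸ G.en_mem_vs h1 b) hvA
        · exact optSplit_en_new (hne e (hXE he)) h1 h
      · rw [if_neg h]
        exact optSplit_en_same (hne e (hXE he)) (fun h' => h h'.2)
    refine opt_pattern (hfin.subset hXE) (fun e he => optSplit_γ (hne e (hXE he))) ?_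
    intro e he e' he' b b'
    rw [hval e he b, hval e' he' b']
    by_cases c1 : G.en b e = v
    · by_cases c2 : G.en b' e' = v
      · rw [if_pos c1, if_pos c2, c1, c2]
        exact ⟨fun _ => rfl, fun _ => rfl⟩
      · rw [if_pos c1, if_neg c2, c1]
        exact ⟨fun h => absurd h.symm c2, fun h => absurd h.symm (hnv e' (hXE he') b')⟩
    · by_cases c2 : G.en b' e' = v
      · rw [if_neg c1, if_pos c2, c2]
        exact ⟨fun h => absurd h c1, fun h => absurd h (hnv e (hXE he) b)⟩
      · rw [if_neg c1, if_neg c2]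
  have hpR : ∀ X ⊆ A ∪ (M.E \ (A ∪ K)), (G.Ind X ↔ G₂.Ind X) := by
    intro X hX
    have hXE : X ⊆ M.E := hX.trans (Set.union_subset hA Set.sdiff_subset)
    have hXK : ∀ e ∈ X, e ∉ K := by
      intro e he hek
      rcases hX he with h | h
      · exact (hK hek).2 h
      · exact h.2 (Or.inr hek)
    have hval : ∀ e ∈ X, ∀ b, G₂.en b e = G.en b e := fun e he b =>
      optSplit_en_same (hne e (hXE he)) (fun h => hXK e he h.1)
    refine opt_pattern (hfin.subset hXE) (fun e he => optSplit_γ (hne e (hXE he))) ?_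
    intro e he e' he' b b'
    rw [hval e he b, hval e' he' b']
  -- the frame matroid of the split graph
  obtain ⟨M₁, hM₁E, hM₁⟩ := exists_frame G₂ (hfin.insert d)
  have hsub1 : M.E ⊆ M₁.E := by rw [hM₁E]; exact Set.subset_insert _ _
  have hagK : ∀ X ⊆ A ∪ K, (M₁.Indep X ↔ M.Indep X) := by
    intro X hX
    have hXE : X ⊆ M.E := hX.trans (Set.union_subset hA hKE)
    rw [hM₁.2 X (hXE.trans hsub1), hG.2 X hXE, hpK X hX]
  have hagR : ∀ X ⊆ A ∪ (M.E \ (A ∪ K)), (M₁.Indep X ↔ M.Indep X) := by
    intro X hX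
    have hXE : X ⊆ M.E := hX.trans (Set.union_subset hA Set.sdiff_subset)
    rw [hM₁.2 X (hXE.trans hsub1), hG.2 X hXE, hpR X hX]
  obtain ⟨B₀, hB₀⟩ := M.exists_isBasis A hA
  have hRE : M.E \ (A ∪ K) ⊆ M.E \ A := fun x hx => ⟨hx.1, fun h => hx.2 (Or.inl h)⟩
  obtain ⟨BK, hBK⟩ := (M.contract A).exists_isBasis K (by rw [Matroid.contract_ground]; exact hK)
  obtain ⟨BR, hBR⟩ := (M.contract A).exists_isBasis (M.E \ (A ∪ K))
    (by rw [Matroid.contract_ground]; exact hRE)
  have hBind : M.Indep ((BK ∪ BR) ∪ B₀) :=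
    (hB₀.contract_indep_iff.mp (opt_union_indep hsep hBK hBR)).1
  set B := (BK ∪ BR) ∪ B₀ with hB
  have hBE : B ⊆ M.E := hBind.subset_ground
  have hdB : M₁.Indep (insert d B) := by
    rw [hM₁.2 _ (by rw [hM₁E]; exact Set.insert_subset_insert hBE)]
    exact (hstar B hBE).mp hBind
  have hB1 : M₁.Indep B := hdB.subset (Set.subset_insert _ _)
  have hEcl : M.E ⊆ M₁.closure B := by
    intro x hx
    by_cases h : x ∈ K ∨ x ∈ A
    · have h1 := opt_span hsub1 hK hB₀ hBK hagK (by tauto : x ∈ A ∪ K)
      refine M₁.closure_subset_closure ?_ h1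
      rintro y (hy | hy)
      · exact Or.inr hy
      · exact Or.inl (Or.inl hy)
    · have h0 : x ∈ A ∪ (M.E \ (A ∪ K)) := Or.inr ⟨hx, by
        rintro (h' | h')
        · exact h (Or.inr h')
        · exact h (Or.inl h')⟩
      have h1 := opt_span hsub1 hRE hB₀ hBR hagR h0
      refine M₁.closure_subset_closure ?_ h1
      rintro y (hy | hy)
      · exact Or.inr hy
      · exact Or.inl (Or.inr hy)
  have hdcl : d ∉ M₁.closure M.E := by
    intro h
    have h1 : d ∈ M₁.closure B := by
      have h2 := M₁.closure_subset_closure hEcl h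
      rwa [M₁.closure_closure] at h2
    have h3 := (hB1.notMem_closure_iff_of_notMem (fun h => hd (hBE h))
      (by rw [hM₁E]; exact Set.mem_insert _ _)).mpr hdB
    exact h3 h1
  have hrep : G₂.Rep M := by
    refine ⟨hfin, fun I hI => ?_⟩
    constructor
    · intro h
      exact ((hstar I hI).mp h).mono (Set.subset_insert _ _)
    · intro h
      have h1 : M₁.Indep I := (hM₁.2 I (hI.trans hsub1)).mpr h
      have h2 : M₁.Indep (insert d I) := by
        refine (h1.notMem_closure_iff_of_notMem (fun h => hd (hI h))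
          (by rw [hM₁E]; exact Set.mem_insert _ _)).mp ?_
        exact fun h => hdcl (M₁.closure_subset_closure hI h)
      rw [hstar I hI]
      exact (hM₁.2 _ (by rw [hM₁E]; exact Set.insert_subset_insert hI)).mp h2
  have h1 := hmax G₂ hrep
  have h2 : insert v' (G.vs M.E) ⊆ G₂.vs M.E := by
    intro x hx
    rcases Set.mem_insert_iff.mp hx with rfl | hx
    · obtain ⟨e, he, b, hb⟩ := GGraph.mem_vs.mp hvK
      exact GGraph.mem_vs.mpr ⟨e, hKE he, b, optSplit_en_new (hne e (hKE he)) he hb⟩
    · by_cases h : x = v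
      · rw [h]
        obtain ⟨e, he, b, hb⟩ := GGraph.mem_vs.mp hvR
        refine GGraph.mem_vs.mpr ⟨e, he.1, b, ?_⟩
        rw [hG₂, optSplit_en_same (hne e he.1) (fun h => he.2 (Or.inr h.1)), hb]
      · obtain ⟨e, he, b, hb⟩ := GGraph.mem_vs.mp hx
        refine GGraph.mem_vs.mpr ⟨e, he, b, ?_⟩
        rw [hG₂, optSplit_en_same (hne e he) (fun h' => h (hb.symm.trans h'.2)), hb]
  have h3 := Set.ncard_le_ncard h2 (G₂.vs_finite hfin)
  rw [Set.ncard_insert_of_notMem hv' (G.vs_finite hfin)] at h3
  omega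

end Pool.Agent.Helper25.GG
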